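import Mathlib
import Pool.Agent.Q151.Rel.Five

/-!
# The relaxation complexity of the 5-simplex over real quadratic fields
-/

set_option autoImplicit false

namespace Pool.Agent.Results.MP_83f734_co.AtMostFive

/-- `X` has an `F`-relaxation given by `k` linear inequalities: there are a `k × d` matrix `A` and
a vector `b` with entries in `F` such that the integer points of `{x | A x ≤ b}` are exactly the
elements of `X`. -/
def HasRelaxation (F : Subfield ℝ) {d : ℕ} (X : Set (Fin d → ℤ)) (k : ℕ) : Prop :=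
  ∃ (A : Matrix (Fin k) (Fin d) ℝ) (b : Fin k → ℝ),
    (∀ i j, A i j ∈ F) ∧ (∀ i, b i ∈ F) ∧
      {x : Fin d → ℤ | ∀ i, ∑ j, A i j * (x j : ℝ) ≤ b i} = X

/-- The relaxation complexity of `X` over `F`: the least number of inequalities of an
`F`-relaxation (`⊤` if there is none). -/
noncomputable def rc (F : Subfield ℝ) {d : ℕ} (X : Set (Fin d → ℤ)) : ℕ∞ :=
  ⨅ (k : ℕ) (_ : HasRelaxation F X k), (k : ℕ∞)

/-- The vertices of the standard simplex: the zero vector and the standard unit vectors. -/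
def Delta (d : ℕ) : Set (Fin d → ℤ) := {x | x = 0 ∨ ∃ i, x = Pi.single i 1}

lemma exists_irrational {F : Subfield ℝ} (hF : F ≠ ⊥) :
    ∃ η ∈ F, Irrational η ∧ 0 < η ∧ η < 1 / 100 := by
  obtain ⟨r, hr, hirr⟩ : ∃ r ∈ F, Irrational r := by
    by_contra hcon
    push Not at hcon
    apply hF
    rw [eq_bot_iff]
    intro r hr
    have := hcon r hr
    rw [irrational_iff_ne_rational] at this
    push Not at this
    obtain ⟨a, b, _, h⟩ := this
    rw [h]
    exact div_mem (intCast_mem _ a) (intCast_mem _ b)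
  refine ⟨(r - ⌊r⌋) / 200, ?_, ?_, ?_, ?_⟩
  · exact div_mem (sub_mem hr (intCast_mem _ _)) (by exact_mod_cast natCast_mem F 200)
  · have h1 : Irrational (r - ⌊r⌋) := hirr.sub_intCast _
    have h2 : Irrational ((r - ⌊r⌋) / ((200 : ℕ) : ℝ)) := h1.div_natCast (by norm_num)
    exact_mod_cast h2
  · have h1 : (⌊r⌋ : ℝ) ≤ r := Int.floor_le r
    have h2 : (⌊r⌋ : ℝ) ≠ r := fun h => hirr ⟨⌊r⌋, by exact_mod_cast h⟩
    have h3 : (⌊r⌋ : ℝ) < r := lt_of_le_of_ne h1 h2
    linarith
  · have h1 := Int.lt_floor_add_one r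
    linarith

/-- The five inequalities, for an irrational number `η` with `0 < η < 1 / 100`. -/
noncomputable def matA (η : ℝ) : Matrix (Fin 5) (Fin 5) ℝ :=
  !![0, 0, -1, -(101 / 100), -(1 + η);
    1 / 100 - η, 1 / 100, 1 + (1 / 100 - η) / 2, 1 + (1 / 100 - η) / 2, 1 + (1 / 100 - η) / 2;
    -1, -2, 0, -(198 / 100), 2 * η - 1;
    202 / 100, 101 / 100, 99 / 100, 202 / 100, 2 * η - 2 / 100;
    -(1 + η), 1 + η, -(1 + 3 * η), 2 / 100 - 2 * η, 1 + η]

noncomputable def vecb (η : ℝ) : Fin 5 → ℝ :=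
  ![0, 1 + (1 / 100 - η) / 2, 0, 202 / 100, 1 + η]

lemma sol_iff {η : ℝ} (hη : Irrational η) (h0 : 0 < η) (h1 : η < 1 / 100) (x : Fin 5 → ℤ) :
    (∀ i, ∑ j, matA η i j * (x j : ℝ) ≤ vecb η i) ↔ x ∈ Delta 5 := by
  constructor
  · intro h
    have i1 := h 0
    have i2 := h 1
    have i3 := h 2
    have i4 := h 3
    have i5 := h 4
    simp only [Fin.sum_univ_five] at i1 i2 i3 i4 i5
    simp [matA, vecb] at i1 i2 i3 i4 i5
    have := Q151.Rel.core hη h0 h1 (x 0) (x 1) (x 2) (x 3) (x 4) (by linarith) (by linarith)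
      (by linarith) (by linarith) (by linarith)
    rcases this with k | k | k | k | k | k
    · left
      funext j
      fin_cases j <;> simp [k.1, k.2.1, k.2.2.1, k.2.2.2.1, k.2.2.2.2]
    · right
      refine ⟨0, ?_⟩
      funext j
      fin_cases j <;> simp [k.1, k.2.1, k.2.2.1, k.2.2.2.1, k.2.2.2.2]
    · right
      refine ⟨1, ?_⟩
      funext j
      fin_cases j <;> simp [k.1, k.2.1, k.2.2.1, k.2.2.2.1, k.2.2.2.2]
    · right
      refine ⟨2, ?_⟩
      funext j
      fin_cases j <;> simp [k.1, k.2.1, k.2.2.1, k.2.2.2.1, k.2.2.2.2]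
    · right
      refine ⟨3, ?_⟩
      funext j
      fin_cases j <;> simp [k.1, k.2.1, k.2.2.1, k.2.2.2.1, k.2.2.2.2]
    · right
      refine ⟨4, ?_⟩
      funext j
      fin_cases j <;> simp [k.1, k.2.1, k.2.2.1, k.2.2.2.1, k.2.2.2.2]
  · rintro (rfl | ⟨k, rfl⟩) i
    · fin_cases i <;> simp [matA, vecb] <;> linarith
    · fin_cases k <;> fin_cases i <;> simp [matA, vecb, Pi.single_apply] <;> linarith

/-- Over every subfield `F` of the real numbers other than `ℚ` the simplex `Δ_5` has a relaxation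
with five inequalities. -/
theorem hasRelaxation {F : Subfield ℝ} (hF : F ≠ ⊥) : HasRelaxation F (Delta 5) 5 := by
  obtain ⟨η, hmem, hη, h0, h1⟩ := exists_irrational hF
  have hq : ∀ q : ℚ, (q : ℝ) ∈ F := fun q => SubfieldClass.ratCast_mem F q
  have h1' : (1 : ℝ) ∈ F := one_mem F
  have h2' : (2 : ℝ) ∈ F := by exact_mod_cast hq 2
  have h3' : (3 : ℝ) ∈ F := by exact_mod_cast hq 3
  have k1 : ((1 : ℝ) / 100) ∈ F := by
    have := hq (1 / 100)
    push_cast at this
    exact this
  have k2 : ((101 : ℝ) / 100) ∈ F := by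
    have := hq (101 / 100)
    push_cast at this
    exact this
  have k3 : ((198 : ℝ) / 100) ∈ F := by
    have := hq (198 / 100)
    push_cast at this
    exact this
  have k4 : ((202 : ℝ) / 100) ∈ F := by
    have := hq (202 / 100)
    push_cast at this
    exact this
  have k5 : ((99 : ℝ) / 100) ∈ F := by
    have := hq (99 / 100)
    push_cast at this
    exact this
  have k6 : ((2 : ℝ) / 100) ∈ F := by
    have := hq (2 / 100)
    push_cast at this
    exact this
  have z0 : (0 : ℝ) ∈ F := zero_mem F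
  have m1 : 1 + η ∈ F := add_mem h1' hmem
  have m2 : 1 + (1 / 100 - η) / 2 ∈ F := add_mem h1' (div_mem (sub_mem k1 hmem) h2')
  have m3 : 2 * η ∈ F := mul_mem h2' hmem
  have m4 : 1 + 3 * η ∈ F := add_mem h1' (mul_mem h3' hmem)
  refine ⟨matA η, vecb η, ?_, ?_, ?_⟩
  · intro i j
    fin_cases i <;> fin_cases j <;> simp only [matA, Matrix.of_apply, Matrix.cons_val',
      Matrix.cons_val_zero, Matrix.cons_val_one, Matrix.cons_val, Fin.zero_eta, Fin.mk_one,
      Fin.reduceFinMk, Matrix.cons_val_fin_one]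
    · exact z0
    · exact z0
    · exact neg_mem h1'
    · exact neg_mem k2
    · exact neg_mem m1
    · exact sub_mem k1 hmem
    · exact k1
    · exact m2
    · exact m2
    · exact m2
    · exact neg_mem h1'
    · exact neg_mem h2'
    · exact z0
    · exact neg_mem k3
    · exact sub_mem m3 h1'
    · exact k4
    · exact k2
    · exact k5
    · exact k4
    · exact sub_mem m3 k6
    · exact neg_mem m1
    · exact m1
    · exact neg_mem m4
    · exact sub_mem k6 m3
    · exact m1
  · intro i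
    fin_cases i <;> simp only [vecb, Matrix.cons_val', Matrix.cons_val_zero, Matrix.cons_val_one,
      Matrix.cons_val, Fin.zero_eta, Fin.mk_one, Fin.reduceFinMk, Matrix.cons_val_fin_one]
    · exact z0
    · exact m2
    · exact z0
    · exact k4
    · exact m1
  · ext x
    exact sol_iff hη h0 h1 x

lemma quadratic_ne_bot {F : Subfield ℝ} (hF : Module.finrank ℚ F = 2) : F ≠ ⊥ := by
  rintro rfl
  have h1 : Module.finrank ℚ (⊥ : Subfield ℝ) = 1 := by
    rw [finrank_eq_one_iff_of_nonzero' (1 : (⊥ : Subfield ℝ)) one_ne_zero]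
    intro w
    obtain ⟨q, hq⟩ : ∃ q : ℚ, (q : ℝ) = (w : ℝ) := by
      have hb : (⊥ : Subfield ℝ) ≤ (algebraMap ℚ ℝ).fieldRange := bot_le
      obtain ⟨q, hq⟩ := hb w.2
      exact ⟨q, hq⟩
    refine ⟨q, ?_⟩
    apply Subtype.ext
    rw [← hq]
    simp [Rat.smul_def]
  omega

/-- For every real quadratic field `F`, and more generally for every subfield `F` of the real
numbers other than `ℚ`, the relaxation complexity of `Δ_5` over `F` is at most `5`. -/
theorem result : ∀ F : Subfield ℝ, (Module.finrank ℚ F = 2 ∨ F ≠ ⊥) → rc F (Delta 5) ≤ 5 := by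
  intro F hF
  have hF' : F ≠ ⊥ := by
    rcases hF with h | h
    · exact quadratic_ne_bot h
    · exact h
  exact iInf₂_le 5 (hasRelaxation hF')

end Pool.Agent.Results.MP_83f734_co.AtMostFive
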